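import Pool.Agent.Q87.BZ.Form

/-! The coefficient bound for Bazilevic functions. -/

set_option autoImplicit false

open Finset PowerSeries

namespace Pool.Agent.Q87.BZ

lemma lim_bound (N : ℕ) (hN : N ≠ 0) (x : ℕ → ℂ) (K : ℝ)
    (hx : ∀ t : ℝ, 0 < t → t ≤ 1 → ‖∑ j ∈ range N, (-(t : ℂ)) ^ (j + 1) * x (j + 1)‖ ≤ K * t) :
    ‖x 1‖ ≤ K := by
  have hcont : Continuous (fun t : ℝ => ‖∑ j ∈ range N, (-(t : ℂ)) ^ j * x (j + 1)‖) := by
    fun_prop
  have hval : ‖∑ j ∈ range N, (-((0 : ℝ) : ℂ)) ^ j * x (j + 1)‖ = ‖x 1‖ := by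
    rw [Finset.sum_eq_single 0]
    · simp
    · intro j _ hj; simp [hj]
    · intro h; exact absurd (by simpa using Nat.pos_of_ne_zero hN) h
  have hle : ∀ t : ℝ, 0 < t → t ≤ 1 → ‖∑ j ∈ range N, (-(t : ℂ)) ^ j * x (j + 1)‖ ≤ K := by
    intro t h0 h1
    have h2 := hx t h0 h1
    have e : ∑ j ∈ range N, (-(t : ℂ)) ^ (j + 1) * x (j + 1)
        = (-(t : ℂ)) * ∑ j ∈ range N, (-(t : ℂ)) ^ j * x (j + 1) := by
      rw [Finset.mul_sum]
      refine Finset.sum_congr rfl fun j _ => ?_
      ring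
    rw [e, norm_mul, norm_neg, Complex.norm_real, Real.norm_eq_abs, abs_of_pos h0,
      mul_comm K t] at h2
    exact le_of_mul_le_mul_left h2 h0
  rw [← hval]
  have hlim : Filter.Tendsto (fun t : ℝ => ‖∑ j ∈ range N, (-(t : ℂ)) ^ j * x (j + 1)‖)
      (nhdsWithin 0 (Set.Ioi 0)) (nhds ‖∑ j ∈ range N, (-((0 : ℝ) : ℂ)) ^ j * x (j + 1)‖) :=
    (hcont.tendsto 0).mono_left nhdsWithin_le_nhds
  refine le_of_tendsto hlim ?_
  have h1 : ∀ᶠ t : ℝ in nhdsWithin 0 (Set.Ioi 0), t < 1 :=
    (Filter.Eventually.filter_mono nhdsWithin_le_nhds (gt_mem_nhds one_pos))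
  filter_upwards [h1, self_mem_nhdsWithin] with t ht1 ht0
  exact hle t ht0 ht1.le

lemma TS_add {f g : ℂ → ℂ} (hf : AnalyticAt ℂ f 0) (hg : AnalyticAt ℂ g 0) :
    TS (fun z => f z + g z) = TS f + TS g := by
  ext n
  simp only [TS, PowerSeries.coeff_mk, map_add, tc]
  rw [iteratedDeriv_fun_add hf.contDiffAt hg.contDiffAt]
  ring

/-- The bound. -/
theorem core {α : ℝ} (hα : 1 ≤ α) {L f : ℂ → ℂ}
    (hL : DifferentiableOn ℂ L (Metric.ball 0 1)) (hL0 : L 0 = 0)
    (hf : ∀ z ∈ Metric.ball (0 : ℂ) 1, f z = z * Complex.exp (L z))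
    (hre : ∀ z ∈ Metric.ball (0 : ℂ) 1,
      0 < (Complex.exp (((α : ℂ) - 1) * L z) * deriv f z).re) (N : ℕ) (hN : N ≠ 0) :
    ‖tc f (N + 1)‖ ≤ 2 / (N + α) := by
  have hα0 : 0 < α := by linarith
  have hαc : (α : ℂ) ≠ 0 := by exact_mod_cast hα0.ne'
  have hb : Metric.ball (0 : ℂ) 1 ∈ nhds (0 : ℂ) := Metric.ball_mem_nhds _ one_pos
  have hbz : ∀ z ∈ Metric.ball (0 : ℂ) 1, Metric.ball (0 : ℂ) 1 ∈ nhds z :=
    fun z hz => Metric.isOpen_ball.mem_nhds hz
  set P : ℂ → ℂ := fun z => Complex.exp (L z) with hP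
  set F : ℂ → ℂ := fun z => Complex.exp (α * L z) with hF
  set h : ℂ → ℂ := fun z => Complex.exp (((α : ℂ) - 1) * L z) * deriv f z with hh
  have hLd : ∀ z ∈ Metric.ball (0 : ℂ) 1, HasDerivAt L (deriv L z) z :=
    fun z hz => (hL.differentiableAt (hbz z hz)).hasDerivAt
  have hPd : ∀ z ∈ Metric.ball (0 : ℂ) 1, HasDerivAt P (P z * deriv L z) z :=
    fun z hz => (hLd z hz).cexp
  have hFd : ∀ z ∈ Metric.ball (0 : ℂ) 1, HasDerivAt F (F z * (α * deriv L z)) z :=
    fun z hz => ((hLd z hz).const_mul (α : ℂ)).cexp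
  have hfd : ∀ z ∈ Metric.ball (0 : ℂ) 1, HasDerivAt f (P z + z * (P z * deriv L z)) z := by
    intro z hz
    have h1 : HasDerivAt (fun z => z * P z) (1 * P z + z * (P z * deriv L z)) z :=
      (hasDerivAt_id z).mul (hPd z hz)
    rw [one_mul] at h1
    refine h1.congr_of_eventuallyEq ?_
    filter_upwards [hbz z hz] with w hw
    exact hf w hw
  have hPdiff : DifferentiableOn ℂ P (Metric.ball 0 1) :=
    fun z hz => (hPd z hz).differentiableAt.differentiableWithinAt
  have hFdiff : DifferentiableOn ℂ F (Metric.ball 0 1) :=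
    fun z hz => (hFd z hz).differentiableAt.differentiableWithinAt
  have hfdiff : DifferentiableOn ℂ f (Metric.ball 0 1) :=
    fun z hz => (hfd z hz).differentiableAt.differentiableWithinAt
  have hPa : AnalyticAt ℂ P 0 := hPdiff.analyticAt hb
  have hFa : AnalyticAt ℂ F 0 := hFdiff.analyticAt hb
  have hfa : AnalyticAt ℂ f 0 := hfdiff.analyticAt hb
  have hhdiff : DifferentiableOn ℂ h (Metric.ball 0 1) := by
    refine DifferentiableOn.mul ?_ (hfdiff.deriv Metric.isOpen_ball)
    exact (hL.const_mul _).cexp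
  have hhF : ∀ z ∈ Metric.ball (0 : ℂ) 1, h z = F z + (1 / (α : ℂ)) * (z * deriv F z) := by
    intro z hz
    have e : Complex.exp (((α : ℂ) - 1) * L z) * P z = F z := by
      rw [hP, hF]
      simp only
      rw [← Complex.exp_add]
      congr 1
      ring
    rw [hh]
    simp only
    rw [(hfd z hz).deriv, (hFd z hz).deriv, mul_add]
    rw [show Complex.exp (((α : ℂ) - 1) * L z) * (z * (P z * deriv L z)) =
      z * deriv L z * (Complex.exp (((α : ℂ) - 1) * L z) * P z) by ring, e]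
    field_simp
  have h0m : (0 : ℂ) ∈ Metric.ball (0 : ℂ) 1 := Metric.mem_ball_self one_pos
  have hF0 : F 0 = 1 := by simp [hF, hL0]
  have hP0 : P 0 = 1 := by simp [hP, hL0]
  have hh0 : h 0 = 1 := by rw [hhF 0 h0m, hF0]; simp
  -- Taylor series of h
  have hTS : TS h = TS F + PowerSeries.C (1 / (α : ℂ)) * (X * d⁄dX ℂ (TS F)) := by
    have e1 : h =ᶠ[nhds 0] fun z => F z + (1 / (α : ℂ)) * (z * deriv F z) := by
      filter_upwards [hb] with z hz
      exact hhF z hz
    have e2 : AnalyticAt ℂ (fun z => z * deriv F z) 0 := analyticAt_id.mul hFa.deriv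
    have e3 : TS (fun z => z * deriv F z) = TS (fun z => z) * TS (deriv F) :=
      TS_mul analyticAt_id hFa.deriv
    have e4 : TS (fun z => (1 / (α : ℂ)) * (z * deriv F z)) =
        TS (fun _ => 1 / (α : ℂ)) * TS (fun z => z * deriv F z) := TS_mul analyticAt_const e2
    have e5 : TS (fun z => F z + (1 / (α : ℂ)) * (z * deriv F z)) =
        TS F + TS (fun z => (1 / (α : ℂ)) * (z * deriv F z)) :=
      TS_add hFa (analyticAt_const.mul e2)
    rw [TS_congr e1, e5, e4, e3, TS_const, TS_deriv, TS_id]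
  have htc : ∀ n : ℕ, tc F n = (α / (n + α) : ℝ) * tc h n := by
    intro n
    have e := congrArg (PowerSeries.coeff n) hTS
    rw [map_add, PowerSeries.coeff_C_mul] at e
    have e3 : PowerSeries.coeff n (X * d⁄dX ℂ (TS F)) = n * tc F n := by
      cases n with
      | zero => simp
      | succ n =>
        rw [PowerSeries.coeff_succ_X_mul, PowerSeries.coeff_derivative]
        simp only [TS, PowerSeries.coeff_mk]
        push_cast
        ring
    rw [e3] at e
    simp only [TS, PowerSeries.coeff_mk] at e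
    rw [e]
    have hna : ((n : ℝ) + α) ≠ 0 := by positivity
    have hnc : ((n : ℂ) + α) ≠ 0 := by exact_mod_cast hna
    push_cast
    field_simp
    ring
  set Φ : PowerSeries ℂ := TS F - 1 with hΦ
  have hΦ0 : PowerSeries.coeff 0 Φ = 0 := by
    rw [hΦ, map_sub]
    simp [TS, tc, hF0]
  have hΦn : ∀ n, n ≠ 0 → PowerSeries.coeff n Φ = tc F n := by
    intro n hn
    rw [hΦ, map_sub, PowerSeries.coeff_one, if_neg hn, sub_zero]
    simp [TS]
  have hTF : TS F = 1 + Φ := by rw [hΦ]; ring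
  -- the reciprocal bound
  have hx : ∀ t : ℝ, 0 < t → t ≤ 1 →
      ‖∑ j ∈ range N, (-(t : ℂ)) ^ (j + 1) * PowerSeries.coeff N (Φ ^ (j + 1))‖
        ≤ (2 * α / (N + α)) * t := by
    intro t ht0 ht1
    have hk := kal_tau hα0 ht0 ht1
    set U : PowerSeries ℂ := 1 + PowerSeries.C (t : ℂ) * Φ with hU
    have hc0 : constantCoeff Φ = 0 := by simpa using hΦ0
    have hUU : U * U⁻¹ = 1 := by
      apply PowerSeries.mul_inv_cancel
      rw [hU, map_add, map_mul, hc0]; simp
    have hUc : ∀ n, PowerSeries.coeff n U =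
        (((fun k : ℕ => if k = 0 then (1 : ℝ) else t * α / (k + α)) n : ℝ) : ℂ) * tc h n := by
      intro n
      rw [hU, map_add, PowerSeries.coeff_C_mul, PowerSeries.coeff_one]
      by_cases hn : n = 0
      · subst hn
        rw [hΦ0]; simp [tc, hh0]
      · rw [hΦn n hn, htc n, if_neg hn]
        simp only [hn, if_false]
        push_cast
        ring
    have hb := recip_bound hk hhdiff hh0 (fun z hz => (hre z hz).le)
      (fun n => PowerSeries.coeff n U⁻¹)
      (by
        have e := congrArg (PowerSeries.coeff 0) hUU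
        rw [PowerSeries.coeff_mul] at e
        simp only [Finset.HasAntidiagonal.antidiagonal_zero, Finset.sum_singleton] at e
        rw [hUc 0] at e
        simpa [tc, hh0] using e)
      (by
        intro n hn
        have e := congrArg (PowerSeries.coeff n) hUU
        rw [PowerSeries.coeff_mul, PowerSeries.coeff_one, if_neg hn] at e
        rw [← e]
        refine Finset.sum_congr rfl fun p _ => ?_
        rw [hUc p.1]) N hN
    rw [recip_coeff Φ hΦ0 (t : ℂ) N, Finset.sum_range_succ'] at hb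
    simp only [pow_zero, one_mul, PowerSeries.coeff_one, hN, if_false, add_zero] at hb
    calc _ ≤ 2 * (t * α / (N + α)) := hb
      _ = (2 * α / (N + α)) * t := by ring
  -- the differential equation
  have hode : (1 + Φ) * d⁄dX ℂ (TS P) =
      PowerSeries.C (((1 / α : ℝ)) : ℂ) * (d⁄dX ℂ Φ * TS P) := by
    have e1 : (fun z => F z * deriv P z) =ᶠ[nhds 0]
        fun z => (1 / (α : ℂ)) * (deriv F z * P z) := by
      filter_upwards [hb] with z hz
      rw [(hPd z hz).deriv, (hFd z hz).deriv]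
      field_simp
    have e2 := TS_congr e1
    have e4 : TS (fun z => deriv F z * P z) = TS (deriv F) * TS P := TS_mul hFa.deriv hPa
    have e5 : TS (fun z => (1 / (α : ℂ)) * (deriv F z * P z)) =
        TS (fun _ => 1 / (α : ℂ)) * TS (fun z => deriv F z * P z) :=
      TS_mul analyticAt_const (hFa.deriv.mul hPa)
    rw [TS_mul hFa hPa.deriv, e5, e4, TS_const, TS_deriv, TS_deriv] at e2
    have e3 : d⁄dX ℂ Φ = d⁄dX ℂ (TS F) := by
      rw [hΦ, map_sub]; simp
    rw [← hTF, e3, e2]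
    push_cast
    rfl
  have hbc := binom_coeff (1 / α) Φ (TS P) hΦ0 (by simp [TS, tc, hP0]) hode N
  rw [Finset.sum_range_succ'] at hbc
  simp only [pow_zero, PowerSeries.coeff_one, hN, if_false, mul_zero, add_zero] at hbc
  have htf : tc f (N + 1) = PowerSeries.coeff N (TS P) := by
    have e1 : f =ᶠ[nhds 0] fun z => z * P z := by
      filter_upwards [hb] with z hz
      exact hf z hz
    have e2 := TS_congr e1
    have e4 : TS (fun z => z * P z) = TS (fun z => z) * TS P := TS_mul analyticAt_id hPa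
    rw [e4, TS_id] at e2
    have e3 := congrArg (PowerSeries.coeff (N + 1)) e2
    rw [PowerSeries.coeff_succ_X_mul] at e3
    simpa [TS] using e3
  rw [htf, hbc]
  rcases eq_or_lt_of_le hα with h1 | h1
  · -- alpha = 1
    have hl := lim_bound N hN (fun j => PowerSeries.coeff N (Φ ^ j)) _ hx
    have hb1 : ∀ j, bet 1 (j + 2) = 0 := by
      intro j
      induction j with
      | zero => simp [bet]
      | succ j ih => rw [bet, ih]; simp
    obtain ⟨M, rfl⟩ : ∃ M, N = M + 1 := ⟨N - 1, by omega⟩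
    rw [Finset.sum_range_succ']
    have e0 : ∑ k ∈ range M, (bet (1 / α) (k + 1 + 1) : ℂ) *
        PowerSeries.coeff (M + 1) (Φ ^ (k + 1 + 1)) = 0 := by
      refine Finset.sum_eq_zero fun k _ => ?_
      rw [← h1, div_one, hb1 k]; simp
    rw [e0, zero_add]
    have e1 : bet (1 / α) (0 + 1) = 1 := by rw [← h1]; simp [bet]
    rw [e1, Complex.ofReal_one, one_mul]
    refine hl.trans (le_of_eq ?_)
    rw [← h1]; ring
  · have hc0 : 0 < 1 / α := by positivity
    have hc1 : 1 / α < 1 := by rw [div_lt_one hα0]; exact h1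
    have := avg_bound hc0 hc1 N (fun j => PowerSeries.coeff N (Φ ^ j)) _ hx
    refine this.trans (le_of_eq ?_)
    have hna : ((N : ℝ) + α) ≠ 0 := by positivity
    field_simp

end Pool.Agent.Q87.BZ
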