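import Pool.Agent.Q87.BZ.Pow

/-! Formal power series part and Taylor series. -/

set_option autoImplicit false

open Finset PowerSeries

namespace Pool.Agent.Q87.BZ

/-- partial sums of the binomial series -/
noncomputable def SM (c : ℝ) (Φ : PowerSeries ℂ) (M : ℕ) : PowerSeries ℂ :=
  ∑ j ∈ range (M + 1), PowerSeries.C (bet c j : ℂ) * Φ ^ j

lemma SM_ode (c : ℝ) (Φ : PowerSeries ℂ) (M : ℕ) :
    (1 + Φ) * d⁄dX ℂ (SM c Φ M) - PowerSeries.C (c : ℂ) * (d⁄dX ℂ Φ * SM c Φ M) =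
      PowerSeries.C ((((M : ℝ) - c) * bet c M : ℝ) : ℂ) * (Φ ^ M * d⁄dX ℂ Φ) := by
  induction M with
  | zero =>
    simp [SM, bet]
  | succ M ih =>
    have e1 : SM c Φ (M + 1) = SM c Φ M + PowerSeries.C (bet c (M + 1) : ℂ) * Φ ^ (M + 1) := by
      rw [SM, Finset.sum_range_succ, SM]
    have e2 : d⁄dX ℂ (PowerSeries.C (bet c (M + 1) : ℂ) * Φ ^ (M + 1)) =
        PowerSeries.C (bet c (M + 1) : ℂ) * (((M : PowerSeries ℂ) + 1) * Φ ^ M * d⁄dX ℂ Φ) := by
      rw [Derivation.leibniz, Derivation.leibniz_pow, PowerSeries.derivative_C]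
      simp only [smul_eq_mul, nsmul_eq_mul, mul_zero, add_zero, Nat.add_sub_cancel]
      push_cast
      ring
    have e3 : PowerSeries.C ((bet c (M + 1) : ℝ) : ℂ) * ((M : PowerSeries ℂ) + 1) =
        PowerSeries.C ((bet c M * (c - M) : ℝ) : ℂ) := by
      have : ((M : PowerSeries ℂ) + 1) = PowerSeries.C (((M : ℝ) + 1 : ℝ) : ℂ) := by
        simp
      rw [this, ← map_mul, ← Complex.ofReal_mul]
      congr 2
      rw [bet]
      have : ((M : ℝ) + 1) ≠ 0 := by positivity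
      field_simp
    rw [e1, map_add, e2]
    have e4 : (1 + Φ) * (d⁄dX ℂ (SM c Φ M) + PowerSeries.C (bet c (M + 1) : ℂ) *
        (((M : PowerSeries ℂ) + 1) * Φ ^ M * d⁄dX ℂ Φ)) - PowerSeries.C (c : ℂ) * (d⁄dX ℂ Φ *
        (SM c Φ M + PowerSeries.C (bet c (M + 1) : ℂ) * Φ ^ (M + 1))) =
        ((1 + Φ) * d⁄dX ℂ (SM c Φ M) - PowerSeries.C (c : ℂ) * (d⁄dX ℂ Φ * SM c Φ M)) +
        (PowerSeries.C ((bet c (M + 1) : ℝ) : ℂ) * ((M : PowerSeries ℂ) + 1)) *
          (Φ ^ M * d⁄dX ℂ Φ) +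
        ((PowerSeries.C ((bet c (M + 1) : ℝ) : ℂ) * ((M : PowerSeries ℂ) + 1)) -
          PowerSeries.C (c : ℂ) * PowerSeries.C (bet c (M + 1) : ℂ)) *
          (Φ ^ (M + 1) * d⁄dX ℂ Φ) := by ring
    rw [e4, ih]
    have e5 : PowerSeries.C (((((M + 1 : ℕ) : ℝ) - c) * bet c (M + 1) : ℝ) : ℂ) =
        (PowerSeries.C ((bet c (M + 1) : ℝ) : ℂ) * ((M : PowerSeries ℂ) + 1)) -
          PowerSeries.C (c : ℂ) * PowerSeries.C (bet c (M + 1) : ℂ) := by
      have : ((M : PowerSeries ℂ) + 1) = PowerSeries.C (((M : ℝ) + 1 : ℝ) : ℂ) := by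
        simp
      rw [this, ← map_mul, ← map_mul, ← map_sub]
      congr 1
      push_cast
      ring
    rw [e5, e3]
    have e6 : PowerSeries.C ((((M : ℝ) - c) * bet c M : ℝ) : ℂ) =
        - PowerSeries.C ((bet c M * (c - M) : ℝ) : ℂ) := by
      rw [← map_neg]; congr 1; push_cast; ring
    rw [e6]
    ring

/-- The binomial expansion, read off from the differential equation. -/
theorem binom_coeff (c : ℝ) (Φ P : PowerSeries ℂ) (hΦ : PowerSeries.coeff 0 Φ = 0)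
    (hP : PowerSeries.coeff 0 P = 1)
    (hode : (1 + Φ) * d⁄dX ℂ P = PowerSeries.C (c : ℂ) * (d⁄dX ℂ Φ * P)) (N : ℕ) :
    PowerSeries.coeff N P = ∑ j ∈ range (N + 1), (bet c j : ℂ) * PowerSeries.coeff N (Φ ^ j) := by
  have hXΦ : (X : PowerSeries ℂ) ∣ Φ := by
    rw [PowerSeries.X_dvd_iff]; simpa using hΦ
  set D : PowerSeries ℂ := P - SM c Φ N with hD
  have hode2 : (1 + Φ) * d⁄dX ℂ D - PowerSeries.C (c : ℂ) * (d⁄dX ℂ Φ * D) =
      - (PowerSeries.C ((((N : ℝ) - c) * bet c N : ℝ) : ℂ) * (Φ ^ N * d⁄dX ℂ Φ)) := by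
    rw [← SM_ode, hD, map_sub]
    linear_combination hode
  have hunit : (1 + Φ)⁻¹ * (1 + Φ) = 1 := by
    apply PowerSeries.inv_mul_cancel
    rw [map_add]
    have : constantCoeff Φ = 0 := by simpa using hΦ
    rw [this]; simp
  have hmain : ∀ n, n ≤ N → (X : PowerSeries ℂ) ^ (n + 1) ∣ D := by
    intro n
    induction n with
    | zero =>
      intro _
      rw [pow_one, PowerSeries.X_dvd_iff]
      have h1 : constantCoeff Φ = 0 := by simpa using hΦ
      have h2 : constantCoeff P = 1 := by simpa using hP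
      rw [hD, map_sub, h2, SM, map_sum, Finset.sum_eq_single 0]
      · simp [bet]
      · intro j _ hj
        rw [map_mul, map_pow, h1, zero_pow hj, mul_zero]
      · intro h; exact absurd (by simp) h
    | succ n ih =>
      intro hn
      have hdvd := ih (by omega)
      have h1 : (X : PowerSeries ℂ) ^ (n + 1) ∣ (1 + Φ) * d⁄dX ℂ D := by
        have e : (1 + Φ) * d⁄dX ℂ D = PowerSeries.C (c : ℂ) * (d⁄dX ℂ Φ * D)
            - (PowerSeries.C ((((N : ℝ) - c) * bet c N : ℝ) : ℂ) * (Φ ^ N * d⁄dX ℂ Φ)) := by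
          linear_combination hode2
        rw [e]
        refine dvd_sub ?_ ?_
        · exact Dvd.dvd.mul_left (Dvd.dvd.mul_left hdvd _) _
        · refine Dvd.dvd.mul_left (Dvd.dvd.mul_right ?_ _) _
          exact (pow_dvd_pow X (by omega : n + 1 ≤ N)).trans (pow_dvd_pow_of_dvd hXΦ N)
      have h2 : (X : PowerSeries ℂ) ^ (n + 1) ∣ d⁄dX ℂ D := by
        have e : d⁄dX ℂ D = (1 + Φ)⁻¹ * ((1 + Φ) * d⁄dX ℂ D) := by
          rw [← mul_assoc, hunit, one_mul]
        rw [e]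
        exact Dvd.dvd.mul_left h1 _
      rw [PowerSeries.X_pow_dvd_iff] at hdvd ⊢
      rw [PowerSeries.X_pow_dvd_iff] at h2
      intro m hm
      rcases Nat.lt_or_ge m (n + 1) with h | h
      · exact hdvd m h
      · have hm' : m = n + 1 := by omega
        subst hm'
        have h3 := h2 n (by omega)
        rw [PowerSeries.coeff_derivative] at h3
        have h4 : ((n : ℂ) + 1) ≠ 0 := by
          exact_mod_cast Nat.succ_ne_zero n
        exact (mul_eq_zero.mp h3).resolve_right h4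
  have h1 := hmain N le_rfl
  rw [PowerSeries.X_pow_dvd_iff] at h1
  have h2 := h1 N (by omega)
  rw [hD, map_sub, sub_eq_zero] at h2
  rw [h2, SM, map_sum]
  refine Finset.sum_congr rfl fun j _ => ?_
  rw [PowerSeries.coeff_C_mul]

/-- Coefficients of `1/(1 + t Φ)`. -/
lemma recip_coeff (Φ : PowerSeries ℂ) (hΦ : PowerSeries.coeff 0 Φ = 0) (t : ℂ) (N : ℕ) :
    PowerSeries.coeff N ((1 + PowerSeries.C t * Φ)⁻¹) =
      ∑ j ∈ range (N + 1), (-t) ^ j * PowerSeries.coeff N (Φ ^ j) := by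
  set U : PowerSeries ℂ := 1 + PowerSeries.C t * Φ with hU
  have h0 : constantCoeff Φ = 0 := by simpa using hΦ
  have hunit : U⁻¹ * U = 1 := by
    apply PowerSeries.inv_mul_cancel
    rw [hU, map_add, map_mul, h0]; simp
  have hXΦ : (X : PowerSeries ℂ) ∣ Φ := by
    rw [PowerSeries.X_dvd_iff]; exact h0
  set S : PowerSeries ℂ := ∑ j ∈ range (N + 1), (PowerSeries.C (-t) * Φ) ^ j with hS
  have hgeom : U * S = 1 - (PowerSeries.C (-t) * Φ) ^ (N + 1) := by
    have := mul_neg_geom_sum (PowerSeries.C (-t) * Φ) (N + 1)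
    rw [← this, hU, hS]
    congr 1
    rw [map_neg]; ring
  have h1 : U⁻¹ = S + U⁻¹ * (PowerSeries.C (-t) * Φ) ^ (N + 1) := by
    have : U⁻¹ * (U * S) = S := by rw [← mul_assoc, hunit, one_mul]
    rw [hgeom] at this
    linear_combination this
  rw [h1, map_add]
  have h2 : PowerSeries.coeff N (U⁻¹ * (PowerSeries.C (-t) * Φ) ^ (N + 1)) = 0 := by
    have hd : (X : PowerSeries ℂ) ^ (N + 1) ∣ U⁻¹ * (PowerSeries.C (-t) * Φ) ^ (N + 1) := by
      refine Dvd.dvd.mul_left ?_ _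
      rw [mul_pow]
      exact Dvd.dvd.mul_left (pow_dvd_pow_of_dvd hXΦ _) _
    rw [PowerSeries.X_pow_dvd_iff] at hd
    exact hd N (by omega)
  rw [h2, add_zero, hS, map_sum]
  refine Finset.sum_congr rfl fun j _ => ?_
  rw [mul_pow, ← map_pow, PowerSeries.coeff_C_mul]

/-- Taylor series at zero -/
noncomputable def TS (f : ℂ → ℂ) : PowerSeries ℂ := PowerSeries.mk (tc f)

lemma TS_mul {f g : ℂ → ℂ} (hf : AnalyticAt ℂ f 0) (hg : AnalyticAt ℂ g 0) :
    TS (fun z => f z * g z) = TS f * TS g := by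
  ext n
  simp only [TS, PowerSeries.coeff_mk, PowerSeries.coeff_mul, tc]
  rw [iteratedDeriv_fun_mul hf.contDiffAt hg.contDiffAt,
    Finset.Nat.sum_antidiagonal_eq_sum_range_succ_mk, Finset.sum_div]
  refine Finset.sum_congr rfl fun i hi => ?_
  have hin : i ≤ n := by simpa [Nat.lt_succ_iff] using hi
  rw [Nat.cast_choose ℂ hin]
  have h1 : (n.factorial : ℂ) ≠ 0 := by exact_mod_cast n.factorial_ne_zero
  have h2 : (i.factorial : ℂ) ≠ 0 := by exact_mod_cast i.factorial_ne_zero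
  have h3 : ((n - i).factorial : ℂ) ≠ 0 := by exact_mod_cast (n - i).factorial_ne_zero
  field_simp

lemma TS_deriv (f : ℂ → ℂ) : TS (deriv f) = d⁄dX ℂ (TS f) := by
  ext n
  rw [PowerSeries.coeff_derivative]
  simp only [TS, PowerSeries.coeff_mk, tc]
  rw [iteratedDeriv_succ', Nat.factorial_succ]
  have h1 : (n.factorial : ℂ) ≠ 0 := by exact_mod_cast n.factorial_ne_zero
  have h2 : ((n : ℂ) + 1) ≠ 0 := by exact_mod_cast Nat.succ_ne_zero n
  push_cast
  field_simp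

lemma tc_congr {f g : ℂ → ℂ} (h : f =ᶠ[nhds 0] g) (n : ℕ) : tc f n = tc g n := by
  rw [tc, tc, h.iteratedDeriv_eq]

lemma TS_congr {f g : ℂ → ℂ} (h : f =ᶠ[nhds 0] g) : TS f = TS g := by
  ext n
  simp only [TS, PowerSeries.coeff_mk]
  exact tc_congr h n

lemma TS_id : TS (fun z : ℂ => z) = X := by
  ext n
  simp only [TS, PowerSeries.coeff_mk, tc]
  rw [iteratedDeriv_fun_id_zero, PowerSeries.coeff_X]
  split_ifs with h
  · subst h; simp
  · simp

lemma TS_const (c : ℂ) : TS (fun _ : ℂ => c) = PowerSeries.C c := by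
  ext n
  simp only [TS, PowerSeries.coeff_mk, tc]
  rw [PowerSeries.coeff_C, iteratedDeriv_const]
  split_ifs with h
  · subst h; simp
  · simp

end Pool.Agent.Q87.BZ
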