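import Mathlib

/-! Kaluza sequences (log-convex, `a 0 = 1`): the renewal weights are nonnegative, and the
resulting pointwise quadratic inequality. -/

set_option autoImplicit false

open Finset

namespace Pool.Agent.Q87.BZ

/-- the renewal weights of `a` (index shifted by one) -/
noncomputable def ren (a : ℕ → ℝ) : ℕ → ℝ
  | n => a (n + 1) - ∑ l : Fin n, ren a l.1 * a (n - l.1)
termination_by n => n
decreasing_by exact l.2

lemma ren_eq (a : ℕ → ℝ) (n : ℕ) :
    ren a n = a (n + 1) - ∑ l ∈ range n, ren a l * a (n - l) := by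
  rw [ren, Finset.sum_range (fun l => ren a l * a (n - l))]

/-- a Kaluza sequence -/
structure Kaluza (a : ℕ → ℝ) : Prop where
  zero : a 0 = 1
  pos : ∀ n, 0 < a n
  lc : ∀ k n, k ≤ n → a (k + 1) * a n ≤ a (n + 1) * a k

variable {a : ℕ → ℝ}

lemma ren_sum (ha : Kaluza a) (n : ℕ) :
    a (n + 1) = ∑ l ∈ range (n + 1), ren a l * a (n - l) := by
  rw [Finset.sum_range_succ, Nat.sub_self, ha.zero, mul_one]
  have := ren_eq a n
  linarith

lemma ren_nonneg (ha : Kaluza a) (n : ℕ) : 0 ≤ ren a n := by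
  induction n using Nat.strong_induction_on with
  | _ n ih =>
    rw [ren_eq, sub_nonneg]
    cases n with
    | zero => simpa using (ha.pos 1).le
    | succ m =>
      have h1 : (∑ l ∈ range (m + 1), ren a l * a (m + 1 - l)) * a (m + 1)
          ≤ a (m + 1 + 1) * a (m + 1) := by
        conv_rhs => rw [ren_sum ha m]
        rw [Finset.sum_mul, Finset.mul_sum]
        refine Finset.sum_le_sum fun l hl => ?_
        have hl' : l ≤ m := by simpa [Nat.lt_succ_iff] using hl
        have h2 := ha.lc (m - l) (m + 1) (by omega)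
        have h3 : m - l + 1 = m + 1 - l := by omega
        rw [h3] at h2
        have h4 := ih l (by omega)
        nlinarith
      exact le_of_mul_le_mul_right h1 (ha.pos _)

lemma ren_antidiag (ha : Kaluza a) (n : ℕ) :
    a (n + 1) = ∑ p ∈ antidiagonal n, ren a p.1 * a p.2 := by
  rw [Finset.Nat.sum_antidiagonal_eq_sum_range_succ (fun i j => ren a i * a j) n]
  exact ren_sum ha n

/-- generating function form of the renewal equation -/
lemma ren_series (ha : Kaluza a) :
    PowerSeries.mk a = 1 + PowerSeries.X * (PowerSeries.mk (ren a) * PowerSeries.mk a) := by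
  ext n
  cases n with
  | zero => simp [ha.zero]
  | succ n =>
    rw [map_add, PowerSeries.coeff_succ_X_mul, PowerSeries.coeff_mul, PowerSeries.coeff_mk,
      ren_antidiag ha n]
    simp

/-- the same over the complex numbers -/
lemma ren_seriesC (ha : Kaluza a) :
    PowerSeries.mk (fun n => (a n : ℂ)) = 1 + PowerSeries.X *
      (PowerSeries.mk (fun n => (ren a n : ℂ)) * PowerSeries.mk (fun n => (a n : ℂ))) := by
  ext n
  cases n with
  | zero => simp [ha.zero]
  | succ n =>
    rw [map_add, PowerSeries.coeff_succ_X_mul, PowerSeries.coeff_mul, PowerSeries.coeff_mk,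
      ren_antidiag ha n]
    simp

/-- the convolution `a * y` -/
noncomputable def conv (a : ℕ → ℝ) (y : ℕ → ℂ) (n : ℕ) : ℂ :=
  ∑ p ∈ antidiagonal n, (a p.1 : ℂ) * y p.2

lemma conv_zero (ha : Kaluza a) (y : ℕ → ℂ) : conv a y 0 = y 0 := by
  simp [conv, ha.zero]

lemma conv_succ (ha : Kaluza a) (y : ℕ → ℂ) (n : ℕ) :
    conv a y (n + 1) = y (n + 1) + ∑ p ∈ antidiagonal n, (ren a p.1 : ℂ) * conv a y p.2 := by
  have hz : PowerSeries.mk (conv a y) = PowerSeries.mk (fun n => (a n : ℂ)) * PowerSeries.mk y := by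
    ext n; simp [conv, PowerSeries.coeff_mul]
  have h1 : PowerSeries.mk (conv a y) = PowerSeries.mk y + PowerSeries.X *
      (PowerSeries.mk (fun n => (ren a n : ℂ)) * PowerSeries.mk (conv a y)) := by
    rw [hz]
    conv_lhs => rw [ren_seriesC ha]
    ring
  have h2 := congrArg (PowerSeries.coeff (n + 1)) h1
  rw [map_add, PowerSeries.coeff_succ_X_mul, PowerSeries.coeff_mul] at h2
  simpa using h2

/-- weighted Cauchy-Schwarz for the renewal convolution -/
lemma cs (ha : Kaluza a) (z : ℕ → ℂ) (n : ℕ) :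
    ‖∑ p ∈ antidiagonal n, (ren a p.1 : ℂ) * z p.2‖ ^ 2 ≤
      a (n + 1) * ∑ p ∈ antidiagonal n, ren a p.1 * (‖z p.2‖ ^ 2 / a p.2) := by
  have h1 : ‖∑ p ∈ antidiagonal n, (ren a p.1 : ℂ) * z p.2‖
      ≤ ∑ p ∈ antidiagonal n, ren a p.1 * ‖z p.2‖ := by
    refine (norm_sum_le _ _).trans (Finset.sum_le_sum fun p _ => ?_)
    rw [norm_mul, Complex.norm_real, Real.norm_eq_abs, abs_of_nonneg (ren_nonneg ha _)]
  have h2 : (∑ p ∈ antidiagonal n, ren a p.1 * ‖z p.2‖) ^ 2 ≤
      (∑ p ∈ antidiagonal n, ren a p.1 * a p.2) *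
        ∑ p ∈ antidiagonal n, ren a p.1 * (‖z p.2‖ ^ 2 / a p.2) := by
    refine Finset.sum_sq_le_sum_mul_sum_of_sq_le_mul _ (fun p _ => ?_) (fun p _ => ?_)
      (fun p _ => ?_)
    · exact mul_nonneg (ren_nonneg ha _) (ha.pos _).le
    · exact mul_nonneg (ren_nonneg ha _) (div_nonneg (sq_nonneg _) (ha.pos _).le)
    · have := (ha.pos p.2).ne'
      apply le_of_eq
      field_simp
  rw [ren_antidiag ha n]
  refine le_trans ?_ h2
  exact pow_le_pow_left₀ (norm_nonneg _) h1 2

/-- the convolution identity behind the telescoping -/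
lemma tele (ha : Kaluza a) (g : ℕ → ℝ) (N : ℕ) :
    ∑ p ∈ antidiagonal (N + 1), a p.1 * g p.2 =
      g (N + 1) + ∑ p ∈ antidiagonal N, a p.1 *
        ∑ q ∈ antidiagonal p.2, ren a q.1 * g q.2 := by
  have h1 : PowerSeries.mk a * PowerSeries.mk g = PowerSeries.mk g + PowerSeries.X *
      (PowerSeries.mk a * (PowerSeries.mk (ren a) * PowerSeries.mk g)) := by
    conv_lhs => rw [ren_series ha]
    ring
  have h2 := congrArg (PowerSeries.coeff (N + 1)) h1
  rw [map_add, PowerSeries.coeff_succ_X_mul, PowerSeries.coeff_mul, PowerSeries.coeff_mul] at h2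
  simp only [PowerSeries.coeff_mul, PowerSeries.coeff_mk] at h2
  exact h2

/-- The pointwise quadratic inequality. -/
theorem quad (ha : Kaluza a) (y : ℕ → ℂ) (N : ℕ) :
    ‖conv a y N‖ ^ 2 / a N ≤ ∑ p ∈ antidiagonal N, a p.1 / a p.2 *
      (2 * (star (y p.2) * conv a y p.2).re - ‖y p.2‖ ^ 2) := by
  set z := conv a y with hz
  have hpt : ∀ j, 2 * (star (y j) * z j).re - ‖y j‖ ^ 2 = ‖z j‖ ^ 2 - ‖z j - y j‖ ^ 2 := by
    intro j
    rw [← Complex.normSq_eq_norm_sq, ← Complex.normSq_eq_norm_sq, ← Complex.normSq_eq_norm_sq]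
    simp only [Complex.normSq_apply, Complex.mul_re, Complex.sub_re, Complex.sub_im,
      Complex.star_def, Complex.conj_re, Complex.conj_im]
    ring
  have hrw : ∑ p ∈ antidiagonal N, a p.1 / a p.2 *
      (2 * (star (y p.2) * z p.2).re - ‖y p.2‖ ^ 2) =
      ∑ p ∈ antidiagonal N, a p.1 * (‖z p.2‖ ^ 2 / a p.2) -
      ∑ p ∈ antidiagonal N, a p.1 * (‖z p.2 - y p.2‖ ^ 2 / a p.2) := by
    rw [← Finset.sum_sub_distrib]
    refine Finset.sum_congr rfl fun p _ => ?_
    rw [hpt]; ring
  rw [hrw]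
  cases N with
  | zero =>
    simp [hz, conv_zero ha, ha.zero]
  | succ M =>
    have h1 := tele ha (fun j => ‖z j‖ ^ 2 / a j) M
    have h2 : ∑ p ∈ antidiagonal (M + 1), a p.1 * (‖z p.2 - y p.2‖ ^ 2 / a p.2) ≤
        ∑ p ∈ antidiagonal M, a p.1 *
          ∑ q ∈ antidiagonal p.2, ren a q.1 * (‖z q.2‖ ^ 2 / a q.2) := by
      rw [Finset.Nat.antidiagonal_succ', Finset.sum_cons, Finset.sum_map]
      have h0 : z 0 - y 0 = 0 := by rw [hz, conv_zero ha, sub_self]
      simp only [h0, norm_zero, ne_eq, OfNat.ofNat_ne_zero, not_false_eq_true, zero_pow, zero_div,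
        mul_zero, zero_add]
      refine Finset.sum_le_sum fun p _ => ?_
      simp only [Function.Embedding.prodMap, Function.Embedding.coeFn_mk, Prod.map,
        Function.Embedding.refl_apply, Nat.succ_eq_add_one]
      refine mul_le_mul_of_nonneg_left ?_ (ha.pos _).le
      rw [div_le_iff₀ (ha.pos _)]
      have h3 : z (p.2 + 1) - y (p.2 + 1)
          = ∑ q ∈ antidiagonal p.2, (ren a q.1 : ℂ) * z q.2 := by
        rw [hz, conv_succ ha, add_sub_cancel_left]
      rw [h3, mul_comm]
      exact cs ha z p.2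
    rw [h1]
    linarith

end Pool.Agent.Q87.BZ
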