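import Pool.Agent.Q87.BZ.Kal

/-! Coefficient bound for reciprocals of multiplier transforms of Caratheodory functions. -/

set_option autoImplicit false

open Finset Polynomial

namespace Pool.Agent.Q87.BZ

variable {a : ℕ → ℝ}

/-- the polynomial `zeta_j` -/
noncomputable def zeta (a : ℕ → ℝ) (B : ℕ → ℂ) (j : ℕ) : ℂ[X] :=
  ∑ q ∈ antidiagonal j, ((a q.1 : ℂ) * B q.2) • (X ^ q.1 : ℂ[X])

lemma zeta_eval (a : ℕ → ℝ) (B : ℕ → ℂ) (j : ℕ) (w : ℂ) :
    (zeta a B j).eval w = ∑ q ∈ antidiagonal j, ((a q.1 : ℂ) * B q.2) * w ^ q.1 := by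
  simp [zeta, eval_finsetSum]

lemma conv_eq (a : ℕ → ℝ) (B : ℕ → ℂ) (j : ℕ) (w : ℂ) (hw : ‖w‖ = 1) :
    conv a (fun n => B n * (star w) ^ n) j = (star w) ^ j * (zeta a B j).eval w := by
  have hww : star w * w = 1 := by
    rw [Complex.star_def, ← Complex.normSq_eq_conj_mul_self, Complex.normSq_eq_norm_sq, hw]
    simp
  rw [zeta_eval, conv, Finset.mul_sum]
  refine Finset.sum_congr rfl fun q hq => ?_
  have hq' : q.1 + q.2 = j := by simpa using hq
  rw [← hq', pow_add]
  have : (star w) ^ q.1 * w ^ q.1 = 1 := by rw [← mul_pow, hww, one_pow]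
  calc (a q.1 : ℂ) * (B q.2 * (star w) ^ q.2)
      = ((star w) ^ q.1 * w ^ q.1) * ((a q.1 : ℂ) * (B q.2 * (star w) ^ q.2)) := by
        rw [this, one_mul]
    _ = _ := by ring

/-- The main coefficient bound. -/
theorem coeff_bound (ha : Kaluza a) (L : ℂ[X] →ₗ[ℂ] ℂ)
    (hL : ∀ q : ℂ[X], (∀ w : ℂ, ‖w‖ = 1 → 0 ≤ (q.eval w).re) → 0 ≤ (L q).re)
    (h1 : L 1 = 1) (c : ℕ → ℂ) (hc0 : c 0 = 1) (hc : ∀ n, n ≠ 0 → L (X ^ n) = c n / 2)
    (B : ℕ → ℂ) (hB0 : B 0 = 1)
    (hB : ∀ n, n ≠ 0 → ∑ p ∈ antidiagonal n, ((a p.1 : ℂ) * c p.1) * B p.2 = 0) (N : ℕ)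
    (hN : N ≠ 0) : ‖B N‖ ≤ 2 * a N := by
  have hLX : ∀ n, L (X ^ n) = c n / 2 + if n = 0 then 1 / 2 else 0 := by
    intro n
    by_cases hn : n = 0
    · subst hn; rw [pow_zero, h1, hc0]; norm_num
    · rw [hc n hn, if_neg hn, add_zero]
  have hLz : ∀ j, L (zeta a B j) = if j = 0 then 1 else B j / 2 := by
    intro j
    have e1 : L (zeta a B j) = (∑ q ∈ antidiagonal j, ((a q.1 : ℂ) * c q.1) * B q.2) / 2 +
        ∑ q ∈ antidiagonal j, ((a q.1 : ℂ) * B q.2) * (if q.1 = 0 then 1 / 2 else 0) := by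
      rw [zeta, map_sum, Finset.sum_div, ← Finset.sum_add_distrib]
      refine Finset.sum_congr rfl fun q _ => ?_
      rw [map_smul, hLX, smul_eq_mul]
      ring
    have e2 : ∑ q ∈ antidiagonal j, ((a q.1 : ℂ) * B q.2) * (if q.1 = 0 then 1 / 2 else 0)
        = B j / 2 := by
      rw [Finset.sum_eq_single (0, j)]
      · simp [ha.zero]; ring
      · rintro ⟨p, q⟩ hpq hne
        have hp : p ≠ 0 := by
          rintro rfl
          apply hne
          have : 0 + q = j := by simpa using hpq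
          simp at this
          rw [this]
        simp [hp]
      · intro h; exact absurd (by simp) h
    rw [e1, e2]
    by_cases hj : j = 0
    · subst hj; simp [ha.zero, hc0, hB0]; norm_num
    · rw [hB j hj, if_neg hj]; simp
  set d : ℂ := B N / 2 with hd
  set Ψ : ℂ[X] := (∑ p ∈ antidiagonal N, ((a p.1 / a p.2 : ℝ) : ℂ) •
      ((2 * star (B p.2)) • zeta a B p.2 - ((‖B p.2‖ ^ 2 : ℝ) : ℂ) • (1 : ℂ[X])))
      - ((1 / a N : ℝ) : ℂ) • ((2 * star d) • zeta a B N - ((‖d‖ ^ 2 : ℝ) : ℂ) • (1 : ℂ[X])) with hΨ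
  have hpos : 0 ≤ (L Ψ).re := by
    apply hL
    intro w hw
    have hq := quad ha (fun n => B n * (star w) ^ n) N
    have hsw : ∀ j, ‖(star w) ^ j‖ = 1 := by
      intro j; rw [norm_pow, norm_star, hw, one_pow]
    have hww : ∀ j : ℕ, star ((star w) ^ j) * (star w) ^ j = 1 := by
      intro j
      have h3 := hsw j
      rw [Complex.star_def] at h3 ⊢
      rw [← Complex.normSq_eq_conj_mul_self, Complex.normSq_eq_norm_sq, h3]
      simp
    have e1 : ∀ j, star (B j * (star w) ^ j) * conv a (fun n => B n * (star w) ^ n) j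
        = star (B j) * (zeta a B j).eval w := by
      intro j
      rw [conv_eq a B j w hw, star_mul']
      calc star (B j) * star ((star w) ^ j) * ((star w) ^ j * (zeta a B j).eval w)
          = (star ((star w) ^ j) * (star w) ^ j) * (star (B j) * (zeta a B j).eval w) := by ring
        _ = _ := by rw [hww, one_mul]
    have e2 : ∀ j, ‖B j * (star w) ^ j‖ = ‖B j‖ := by
      intro j; rw [norm_mul, hsw, mul_one]
    have e3 : ‖conv a (fun n => B n * (star w) ^ n) N‖ = ‖(zeta a B N).eval w‖ := by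
      rw [conv_eq a B N w hw, norm_mul, hsw, one_mul]
    simp only [e1, e2, e3] at hq
    have e4 : 2 * (star d * (zeta a B N).eval w).re - ‖d‖ ^ 2 ≤ ‖(zeta a B N).eval w‖ ^ 2 := by
      rw [← Complex.normSq_eq_norm_sq, ← Complex.normSq_eq_norm_sq]
      simp only [Complex.normSq_apply, Complex.mul_re, Complex.star_def, Complex.conj_re,
        Complex.conj_im]
      nlinarith [sq_nonneg (d.re - ((zeta a B N).eval w).re),
        sq_nonneg (d.im - ((zeta a B N).eval w).im)]
    have e5 : (Ψ.eval w).re = (∑ p ∈ antidiagonal N, a p.1 / a p.2 *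
        (2 * (star (B p.2) * (zeta a B p.2).eval w).re - ‖B p.2‖ ^ 2))
        - 1 / a N * (2 * (star d * (zeta a B N).eval w).re - ‖d‖ ^ 2) := by
      rw [hΨ]
      simp only [eval_sub, eval_finsetSum, eval_smul, smul_eq_mul, eval_one, mul_one,
        Complex.sub_re, Complex.re_sum, Complex.re_ofReal_mul, mul_assoc]
      simp only [Complex.ofReal_re]
      congr 1
      · refine Finset.sum_congr rfl fun p _ => ?_
        congr 2
        simp
      · congr 2
        simp
    rw [e5]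
    have e6 : 1 / a N * (2 * (star d * (zeta a B N).eval w).re - ‖d‖ ^ 2)
        ≤ ‖(zeta a B N).eval w‖ ^ 2 / a N := by
      rw [div_mul_eq_mul_div, one_mul]
      exact div_le_div_of_nonneg_right e4 (ha.pos N).le
    linarith
  have hLΨ : (L Ψ).re = a N - ‖B N‖ ^ 2 / (4 * a N) := by
    have haN := (ha.pos N).ne'
    have hterm : ∀ j, j ≠ 0 → (2 * star (B j)) * (B j / 2) - ((‖B j‖ ^ 2 : ℝ) : ℂ) = 0 := by
      intro j _
      have : star (B j) * B j = ((‖B j‖ ^ 2 : ℝ) : ℂ) := by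
        rw [Complex.star_def, ← Complex.normSq_eq_conj_mul_self, Complex.normSq_eq_norm_sq]
      rw [← this]; ring
    have e1 : L Ψ = ((a N : ℝ) : ℂ) - ((1 / a N : ℝ) : ℂ) *
        ((2 * star d) * (B N / 2) - ((‖d‖ ^ 2 : ℝ) : ℂ)) := by
      rw [hΨ, map_sub, map_sum, map_smul, map_sub, map_smul, map_smul, hLz, if_neg hN, h1]
      simp only [smul_eq_mul, mul_one]
      congr 1
      rw [Finset.sum_eq_single (N, 0)]
      · rw [map_smul, map_sub, map_smul, map_smul, hLz, if_pos rfl, h1, hB0, ha.zero]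
        simp
        norm_num
      · rintro ⟨p, q⟩ hpq hne
        have hq : q ≠ 0 := by
          rintro rfl
          apply hne
          have : p + 0 = N := by simpa using hpq
          simp at this
          rw [this]
        rw [map_smul, map_sub, map_smul, map_smul, hLz, if_neg hq, h1]
        simp only [smul_eq_mul, mul_one]
        rw [hterm q hq, mul_zero]
      · intro h; exact absurd (by simp) h
    have e2 : (2 * star d) * (B N / 2) = ((‖B N‖ ^ 2 / 2 : ℝ) : ℂ) := by
      rw [hd]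
      have : star (B N) * B N = ((‖B N‖ ^ 2 : ℝ) : ℂ) := by
        rw [Complex.star_def, ← Complex.normSq_eq_conj_mul_self, Complex.normSq_eq_norm_sq]
      push_cast
      push_cast at this
      rw [← this, star_div₀]
      simp
      ring
    have e3 : ‖d‖ ^ 2 = ‖B N‖ ^ 2 / 4 := by
      rw [hd, norm_div]; norm_num; ring
    rw [e1, e2, e3, ← Complex.ofReal_sub, ← Complex.ofReal_mul, ← Complex.ofReal_sub,
      Complex.ofReal_re]
    field_simp
    ring
  rw [hLΨ] at hpos
  have haN := ha.pos N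
  have h5 : ‖B N‖ ^ 2 / (4 * a N) ≤ a N := by linarith
  rw [div_le_iff₀ (by positivity)] at h5
  nlinarith [norm_nonneg (B N), sq_nonneg (‖B N‖ - 2 * a N)]

end Pool.Agent.Q87.BZ
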