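import Pool.Agent.Q87.BZ.Toep

/-! Powers: binomial coefficients as moments, and the formal binomial expansion. -/

set_option autoImplicit false

open Finset MeasureTheory

namespace Pool.Agent.Q87.BZ

/-- the sequence `t * al / (k + al)`, with value one at zero, is a Kaluza sequence -/
lemma kal_tau {al t : ℝ} (hal : 0 < al) (ht0 : 0 < t) (ht1 : t ≤ 1) :
    Kaluza (fun k : ℕ => if k = 0 then 1 else t * al / (k + al)) where
  zero := by simp
  pos n := by
    by_cases hn : n = 0
    · simp [hn]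
    · simp only [hn, if_false]; positivity
  lc k n hkn := by
    have hk1 : k + 1 ≠ 0 := by omega
    have hn1 : n + 1 ≠ 0 := by omega
    simp only [hk1, hn1, if_false]
    by_cases hk : k = 0
    · subst hk
      by_cases hn : n = 0
      · subst hn; simp
      · simp only [hn, if_false, if_true, mul_one]
        have hnn : (0 : ℝ) < n := by exact_mod_cast Nat.pos_of_ne_zero hn
        push_cast
        rw [div_mul_div_comm, div_le_div_iff₀ (by positivity) (by positivity)]
        have h1 : t * al * (n + 1 + al) ≤ (0 + 1 + al) * (n + al) := by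
          have : t * al ≤ al := by nlinarith
          nlinarith
        have h2 : 0 ≤ t * al := by positivity
        nlinarith
    · have hn : n ≠ 0 := by omega
      simp only [hk, hn, if_false]
      have hkk : (0 : ℝ) < k := by exact_mod_cast Nat.pos_of_ne_zero hk
      have hnn : (0 : ℝ) < n := by exact_mod_cast Nat.pos_of_ne_zero hn
      have hkn' : (k : ℝ) ≤ n := by exact_mod_cast hkn
      push_cast
      rw [div_mul_div_comm, div_mul_div_comm]
      refine div_le_div_of_nonneg_left (by positivity) (by positivity) ?_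
      nlinarith

/-- the integrand of the Beta moments -/
noncomputable def phi (c : ℝ) (j : ℕ) (t : ℝ) : ℝ := t ^ ((j : ℝ) - c) * (1 - t) ^ c

/-- the Beta moments -/
noncomputable def J (c : ℝ) (j : ℕ) : ℝ := ∫ t in (0 : ℝ)..1, phi c j t

lemma phi_int {c : ℝ} (hc0 : 0 < c) (hc1 : c < 1) (j : ℕ) :
    IntervalIntegrable (phi c j) volume 0 1 := by
  refine IntervalIntegrable.mul_continuousOn ?_ ?_
  · apply intervalIntegral.intervalIntegrable_rpow'
    have : (0 : ℝ) ≤ j := Nat.cast_nonneg j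
    linarith
  · refine Continuous.continuousOn ?_
    exact (continuous_const.sub continuous_id).rpow_const (fun t => Or.inr hc0.le)

lemma J_pos {c : ℝ} (hc0 : 0 < c) (hc1 : c < 1) (j : ℕ) : 0 < J c j := by
  apply intervalIntegral.intervalIntegral_pos_of_pos_on (phi_int hc0 hc1 j) _ one_pos
  intro t ht
  exact mul_pos (Real.rpow_pos_of_pos ht.1 _) (Real.rpow_pos_of_pos (by linarith [ht.2]) _)

lemma J_rec {c : ℝ} (hc0 : 0 < c) (hc1 : c < 1) (j : ℕ) :
    ((j : ℝ) + 2) * J c (j + 1) = (j + 1 - c) * J c j := by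
  have hj : (0 : ℝ) ≤ j := Nat.cast_nonneg j
  have hcont : ContinuousOn (fun t : ℝ => t ^ ((j : ℝ) + 1 - c) * (1 - t) ^ (c + 1))
      (Set.Icc 0 1) := by
    refine Continuous.continuousOn (Continuous.mul ?_ ?_)
    · exact continuous_id.rpow_const (fun t => Or.inr (by linarith))
    · exact (continuous_const.sub continuous_id).rpow_const (fun t => Or.inr (by linarith))
  have hder : ∀ t ∈ Set.Ioo (0 : ℝ) 1,
      HasDerivAt (fun t : ℝ => t ^ ((j : ℝ) + 1 - c) * (1 - t) ^ (c + 1))
      ((j + 1 - c) * phi c j t - (j + 2) * phi c (j + 1) t) t := by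
    intro t ht
    have ht0 : 0 < t := ht.1
    have ht1 : 0 < 1 - t := by linarith [ht.2]
    have h1 : HasDerivAt (fun t : ℝ => t ^ ((j : ℝ) + 1 - c))
        (((j : ℝ) + 1 - c) * t ^ ((j : ℝ) + 1 - c - 1)) t :=
      Real.hasDerivAt_rpow_const (Or.inl ht0.ne')
    have h2 : HasDerivAt (fun t : ℝ => (1 - t) ^ (c + 1))
        ((-1) * (c + 1) * (1 - t) ^ (c + 1 - 1)) t :=
      ((hasDerivAt_id t).const_sub 1).rpow_const (Or.inl ht1.ne')
    have h3 : HasDerivAt (fun t : ℝ => t ^ ((j : ℝ) + 1 - c) * (1 - t) ^ (c + 1)) _ t :=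
      h1.mul h2
    refine h3.congr_deriv ?_
    have e1 : (j : ℝ) + 1 - c - 1 = j - c := by ring
    have e2 : c + 1 - 1 = c := by ring
    have e3 : (1 - t) ^ (c + 1) = (1 - t) * (1 - t) ^ c := by
      rw [Real.rpow_add ht1, Real.rpow_one]; ring
    have e4 : t ^ ((j : ℝ) + 1 - c) = t * t ^ ((j : ℝ) - c) := by
      rw [show (j : ℝ) + 1 - c = 1 + (j - c) by ring, Real.rpow_add ht0, Real.rpow_one]
    have e5 : t ^ (((j + 1 : ℕ) : ℝ) - c) = t * t ^ ((j : ℝ) - c) := by
      rw [show (((j + 1 : ℕ) : ℝ) - c) = 1 + (j - c) by push_cast; ring, Real.rpow_add ht0,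
        Real.rpow_one]
    rw [e1, e2, e3, e4, phi, phi, e5]
    ring
  have hint : IntervalIntegrable (fun t => (j + 1 - c) * phi c j t - (j + 2) * phi c (j + 1) t)
      volume 0 1 :=
    ((phi_int hc0 hc1 j).const_mul _).sub ((phi_int hc0 hc1 (j + 1)).const_mul _)
  have h := intervalIntegral.integral_eq_sub_of_hasDerivAt_of_le zero_le_one hcont hder hint
  rw [intervalIntegral.integral_sub ((phi_int hc0 hc1 j).const_mul _)
    ((phi_int hc0 hc1 (j + 1)).const_mul _), intervalIntegral.integral_const_mul,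
    intervalIntegral.integral_const_mul] at h
  have h0 : (0 : ℝ) ^ ((j : ℝ) + 1 - c) = 0 := Real.zero_rpow (by linarith)
  have h1 : ((1 : ℝ) - 1) ^ (c + 1) = 0 := by rw [sub_self]; exact Real.zero_rpow (by linarith)
  rw [h0, h1] at h
  simp only [J]
  linarith

/-- the binomial coefficients `c choose j` -/
noncomputable def bet (c : ℝ) : ℕ → ℝ
  | 0 => 1
  | (j + 1) => bet c j * (c - j) / (j + 1)

lemma bet_J {c : ℝ} (hc0 : 0 < c) (hc1 : c < 1) (j : ℕ) :
    bet c (j + 1) = (-1) ^ j * (c / J c 0) * J c j := by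
  have hJ0 := (J_pos hc0 hc1 0).ne'
  induction j with
  | zero => simp [bet]; field_simp
  | succ j ih =>
    have h := J_rec hc0 hc1 j
    rw [bet, ih]
    have h2 : ((j : ℝ) + 2) ≠ 0 := by positivity
    have h3 : J c (j + 1) = (j + 1 - c) * J c j / (j + 2) := by
      rw [eq_div_iff h2]; linarith
    rw [h3]
    push_cast
    have h4 : (j : ℝ) + 1 + 1 ≠ 0 := by positivity
    field_simp
    ring

/-- averaging the family of reciprocals against the Beta density -/
lemma avg_bound {c : ℝ} (hc0 : 0 < c) (hc1 : c < 1) (N : ℕ) (x : ℕ → ℂ) (K : ℝ)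
    (hx : ∀ t : ℝ, 0 < t → t ≤ 1 → ‖∑ j ∈ range N, (-(t : ℂ)) ^ (j + 1) * x (j + 1)‖ ≤ K * t) :
    ‖∑ j ∈ range N, (bet c (j + 1) : ℂ) * x (j + 1)‖ ≤ c * K := by
  have hJ0 := J_pos hc0 hc1 0
  have e1 : ∑ j ∈ range N, (bet c (j + 1) : ℂ) * x (j + 1)
      = -((c / J c 0 : ℝ) : ℂ) * ∫ t in (0 : ℝ)..1,
        ∑ j ∈ range N, ((-1 : ℂ) ^ (j + 1) * x (j + 1)) * (phi c j t : ℂ) := by
    rw [intervalIntegral.integral_finsetSum]
    · rw [Finset.mul_sum]
      refine Finset.sum_congr rfl fun j _ => ?_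
      rw [intervalIntegral.integral_const_mul, intervalIntegral.integral_ofReal, bet_J hc0 hc1]
      rw [← J]
      push_cast
      ring
    · intro j _
      exact IntervalIntegrable.const_mul
        (⟨(phi_int hc0 hc1 j).1.ofReal, (phi_int hc0 hc1 j).2.ofReal⟩) _
  rw [e1, norm_mul, norm_neg, Complex.norm_real, Real.norm_eq_abs,
    abs_of_pos (by positivity)]
  have e2 : ‖∫ t in (0 : ℝ)..1,
        ∑ j ∈ range N, ((-1 : ℂ) ^ (j + 1) * x (j + 1)) * (phi c j t : ℂ)‖
      ≤ ∫ t in (0 : ℝ)..1, K * phi c 0 t := by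
    apply intervalIntegral.norm_integral_le_of_norm_le zero_le_one
    · filter_upwards with t ht
      have ht0 : 0 < t := ht.1
      have e3 : ∑ j ∈ range N, ((-1 : ℂ) ^ (j + 1) * x (j + 1)) * (phi c j t : ℂ)
          = ((phi c 0 t / t : ℝ) : ℂ) * ∑ j ∈ range N, (-(t : ℂ)) ^ (j + 1) * x (j + 1) := by
        rw [Finset.mul_sum]
        refine Finset.sum_congr rfl fun j _ => ?_
        have e4 : phi c j t = phi c 0 t / t * t ^ (j + 1) := by
          rw [phi, phi, show (j : ℝ) - c = (((0 : ℕ) : ℝ) - c) + (j : ℕ) by push_cast; ring,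
            Real.rpow_add ht0, Real.rpow_natCast]
          field_simp
          ring
        rw [e4]
        push_cast
        rw [neg_pow (t : ℂ)]
        ring
      have hphi : 0 ≤ phi c 0 t := by
        apply mul_nonneg (Real.rpow_nonneg ht0.le _) (Real.rpow_nonneg _ _)
        linarith [ht.2]
      rw [e3, norm_mul, Complex.norm_real, Real.norm_eq_abs, abs_of_nonneg (by positivity)]
      calc phi c 0 t / t * ‖∑ j ∈ range N, (-(t : ℂ)) ^ (j + 1) * x (j + 1)‖
          ≤ phi c 0 t / t * (K * t) :=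
            mul_le_mul_of_nonneg_left (hx t ht0 ht.2) (by positivity)
        _ = K * phi c 0 t := by field_simp
    · exact (phi_int hc0 hc1 0).const_mul _
  rw [intervalIntegral.integral_const_mul] at e2
  calc c / J c 0 * _ ≤ c / J c 0 * (K * J c 0) := mul_le_mul_of_nonneg_left e2 (by positivity)
    _ = c * K := by field_simp

end Pool.Agent.Q87.BZ
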