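import Pool.Agent.Q87.BZ.Pos

/-! The positive functional attached to an analytic function with positive real part. -/

set_option autoImplicit false

open Finset Polynomial MeasureTheory Complex

namespace Pool.Agent.Q87.BZ

/-- the functional `q ↦ (1/2 pi) ∫ q(exp(-i t)) W(t) dt` -/
noncomputable def Lw (W : C(ℝ, ℝ)) : ℂ[X] →ₗ[ℂ] ℂ where
  toFun q := (1 / (2 * Real.pi) : ℂ) *
    ∫ t in (0 : ℝ)..2 * Real.pi, q.eval (Complex.exp (-(t * I))) * (W t : ℂ)
  map_add' p q := by
    rw [← mul_add, ← intervalIntegral.integral_add]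
    · simp only [eval_add, add_mul]
    · exact Continuous.intervalIntegrable (by fun_prop) _ _
    · exact Continuous.intervalIntegrable (by fun_prop) _ _
  map_smul' c p := by
    simp only [eval_smul, smul_eq_mul, RingHom.id_apply]
    have : ∀ t : ℝ, c * eval (Complex.exp (-(t * I))) p * (W t : ℂ)
        = c * (eval (Complex.exp (-(t * I))) p * (W t : ℂ)) := fun t => mul_assoc _ _ _
    simp only [this]
    rw [intervalIntegral.integral_const_mul]
    ring

lemma Lw_apply (W : C(ℝ, ℝ)) (q : ℂ[X]) : Lw W q = (1 / (2 * Real.pi) : ℂ) *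
    ∫ t in (0 : ℝ)..2 * Real.pi, q.eval (Complex.exp (-(t * I))) * (W t : ℂ) := rfl

lemma Lw_pos (W : C(ℝ, ℝ)) (hW : ∀ t, 0 ≤ W t) (q : ℂ[X])
    (hq : ∀ w : ℂ, ‖w‖ = 1 → 0 ≤ (q.eval w).re) : 0 ≤ (Lw W q).re := by
  rw [Lw_apply]
  have h1 : (1 / (2 * Real.pi) : ℂ) = ((1 / (2 * Real.pi) : ℝ) : ℂ) := by push_cast; rfl
  rw [h1, Complex.re_ofReal_mul]
  refine mul_nonneg (by positivity) ?_
  have h2 : (∫ t in (0 : ℝ)..2 * Real.pi, q.eval (Complex.exp (-(t * I))) * (W t : ℂ)).re
      = ∫ t in (0 : ℝ)..2 * Real.pi, (q.eval (Complex.exp (-(t * I))) * (W t : ℂ)).re := by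
    have h3 : IntervalIntegrable (fun t : ℝ => q.eval (Complex.exp (-(t * I))) * (W t : ℂ))
        volume 0 (2 * Real.pi) := Continuous.intervalIntegrable (by fun_prop) _ _
    have := Complex.reCLM.intervalIntegral_comp_comm h3
    simpa using this.symm
  rw [h2]
  apply intervalIntegral.integral_nonneg (by positivity)
  intro t _
  rw [mul_comm, Complex.re_ofReal_mul]
  refine mul_nonneg (hW t) (hq _ ?_)
  rw [← neg_mul, ← Complex.ofReal_neg, Complex.norm_exp_ofReal_mul_I]

/-- Taylor coefficient -/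
noncomputable def tc (g : ℂ → ℂ) (n : ℕ) : ℂ := iteratedDeriv n g 0 / n.factorial

lemma coefInt {g : ℂ → ℂ} (hg : DifferentiableOn ℂ g (Metric.ball 0 1)) {r : ℝ}
    (hr0 : 0 < r) (hr1 : r < 1) (n : ℕ) :
    ∫ t in (0 : ℝ)..2 * Real.pi, (Complex.exp (-(t * I))) ^ n * g (circleMap 0 r t)
      = 2 * Real.pi * (r : ℂ) ^ n * tc g n := by
  have hsub : Metric.closedBall (0 : ℂ) r ⊆ Metric.ball 0 1 :=
    Metric.closedBall_subset_ball hr1
  have h1 := (hg.mono hsub).circleIntegral_one_div_sub_center_pow_smul hr0 n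
  rw [circleIntegral] at h1
  have hrc : (r : ℂ) ≠ 0 := by exact_mod_cast hr0.ne'
  have h2 : ∀ t : ℝ, deriv (circleMap 0 r) t • ((1 / (circleMap 0 r t - 0) ^ (n + 1)) •
      g (circleMap 0 r t)) =
      (I / (r : ℂ) ^ n) * ((Complex.exp (-(t * I))) ^ n * g (circleMap 0 r t)) := by
    intro t
    rw [deriv_circleMap, sub_zero, smul_eq_mul, smul_eq_mul, circleMap, zero_add,
      Complex.exp_neg]
    have he : Complex.exp (t * I) ≠ 0 := Complex.exp_ne_zero _
    generalize g (r * Complex.exp (t * I)) = G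
    generalize Complex.exp (t * I) = e at he
    rw [mul_pow, inv_pow]
    field_simp
    ring
  simp only [h2] at h1
  rw [intervalIntegral.integral_const_mul] at h1
  have h3 : ∫ t in (0 : ℝ)..2 * Real.pi, (Complex.exp (-(t * I))) ^ n * g (circleMap 0 r t)
      = ((r : ℂ) ^ n / I) * ((I / (r : ℂ) ^ n) * ∫ t in (0 : ℝ)..2 * Real.pi,
        (Complex.exp (-(t * I))) ^ n * g (circleMap 0 r t)) := by
    rw [← mul_assoc]
    have : ((r : ℂ) ^ n / I) * (I / (r : ℂ) ^ n) = 1 := by
      have hI : I ≠ 0 := Complex.I_ne_zero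
      field_simp
    rw [this, one_mul]
  rw [h3, h1, smul_eq_mul, tc]
  field_simp

/-- the weight on the circle of radius `r` -/
noncomputable def wt (h : ℂ → ℂ) (hd : DifferentiableOn ℂ h (Metric.ball 0 1)) (r : ℝ)
    (hr0 : 0 < r) (hr1 : r < 1) : C(ℝ, ℝ) where
  toFun t := (h (circleMap 0 r t)).re
  continuous_toFun := by
    refine Complex.continuous_re.comp (hd.continuousOn.comp_continuous (continuous_circleMap 0 r) ?_)
    intro t
    simpa [abs_of_pos hr0] using hr1

lemma wt_apply (h : ℂ → ℂ) (hd : DifferentiableOn ℂ h (Metric.ball 0 1)) (r : ℝ)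
    (hr0 : 0 < r) (hr1 : r < 1) (t : ℝ) : wt h hd r hr0 hr1 t = (h (circleMap 0 r t)).re := rfl

lemma Lw_X {h : ℂ → ℂ} (hd : DifferentiableOn ℂ h (Metric.ball 0 1)) {r : ℝ}
    (hr0 : 0 < r) (hr1 : r < 1) (n : ℕ) (hn : n ≠ 0) :
    Lw (wt h hd r hr0 hr1) (X ^ n) = (tc h n * (r : ℂ) ^ n) / 2 := by
  rw [Lw_apply]
  have hcont : Continuous (fun t : ℝ => h (circleMap 0 r t)) := by
    refine hd.continuousOn.comp_continuous (continuous_circleMap 0 r) ?_
    intro t
    simpa [abs_of_pos hr0] using hr1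
  have h1 : ∀ t : ℝ, (X ^ n : ℂ[X]).eval (Complex.exp (-(t * I))) *
      ((wt h hd r hr0 hr1 t : ℝ) : ℂ) =
      (1 / 2) * ((Complex.exp (-(t * I))) ^ n * h (circleMap 0 r t)) +
      (1 / 2) * ((Complex.exp (-(t * I))) ^ n * star (h (circleMap 0 r t))) := by
    intro t
    rw [wt_apply, Complex.re_eq_add_conj, Complex.star_def]
    simp
    ring
  simp only [h1]
  rw [intervalIntegral.integral_add, intervalIntegral.integral_const_mul,
    intervalIntegral.integral_const_mul, coefInt hd hr0 hr1 n]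
  rotate_left
  · exact Continuous.intervalIntegrable (continuous_const.mul
      (Continuous.mul (by fun_prop) hcont)) _ _
  · exact Continuous.intervalIntegrable (continuous_const.mul
      (Continuous.mul (by fun_prop) hcont.star)) _ _
  have h2 : ∫ t in (0 : ℝ)..2 * Real.pi, (Complex.exp (-(t * I))) ^ n *
      star (h (circleMap 0 r t)) = 0 := by
    have h3 : ∀ t : ℝ, (Complex.exp (-(t * I))) ^ n * star (h (circleMap 0 r t)) =
        (starRingEnd ℂ) ((1 / (r : ℂ) ^ n) * ((Complex.exp (-(t * I))) ^ 0 *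
          ((circleMap 0 r t) ^ n * h (circleMap 0 r t)))) := by
      intro t
      have hrc : (r : ℂ) ≠ 0 := by exact_mod_cast hr0.ne'
      rw [pow_zero, one_mul, map_mul, map_mul, map_pow, circleMap, zero_add, map_mul,
        ← Complex.exp_conj, map_div₀, map_pow, map_one, Complex.conj_ofReal, map_mul,
        Complex.conj_ofReal, Complex.conj_I, mul_neg, Complex.star_def, mul_pow]
      field_simp
    simp only [h3]
    have h4 : ∫ t in (0 : ℝ)..2 * Real.pi, (starRingEnd ℂ) ((1 / (r : ℂ) ^ n) *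
        ((Complex.exp (-(t * I))) ^ 0 * ((circleMap 0 r t) ^ n * h (circleMap 0 r t)))) =
        (starRingEnd ℂ) (∫ t in (0 : ℝ)..2 * Real.pi, (1 / (r : ℂ) ^ n) *
        ((Complex.exp (-(t * I))) ^ 0 * ((circleMap 0 r t) ^ n * h (circleMap 0 r t)))) := by
      rw [intervalIntegral.integral_of_le (by positivity), intervalIntegral.integral_of_le
        (by positivity)]
      exact integral_conj
    rw [h4, intervalIntegral.integral_const_mul]
    have h5 := coefInt (g := fun z => z ^ n * h z)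
      ((differentiable_id.pow n).differentiableOn.mul hd) hr0 hr1 0
    rw [h5, tc]
    simp [hn]
  rw [h2]
  have hpi : (Real.pi : ℂ) ≠ 0 := by exact_mod_cast Real.pi_ne_zero
  field_simp
  ring

lemma Lw_one {h : ℂ → ℂ} (hd : DifferentiableOn ℂ h (Metric.ball 0 1)) (h0 : h 0 = 1) {r : ℝ}
    (hr0 : 0 < r) (hr1 : r < 1) : Lw (wt h hd r hr0 hr1) 1 = 1 := by
  rw [Lw_apply]
  have hcont : Continuous (fun t : ℝ => h (circleMap 0 r t)) := by
    refine hd.continuousOn.comp_continuous (continuous_circleMap 0 r) ?_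
    intro t
    simpa [abs_of_pos hr0] using hr1
  have h1 := coefInt hd hr0 hr1 0
  simp only [pow_zero, one_mul, mul_one, tc, iteratedDeriv_zero, h0, Nat.factorial_zero,
    Nat.cast_one, div_one] at h1
  have h2 : ∫ t in (0 : ℝ)..2 * Real.pi, (h (circleMap 0 r t)).re = 2 * Real.pi := by
    have h3 : IntervalIntegrable (fun t : ℝ => h (circleMap 0 r t))
        volume 0 (2 * Real.pi) := hcont.intervalIntegrable _ _
    have h4 := Complex.reCLM.intervalIntegral_comp_comm h3
    simp only [Complex.reCLM_apply] at h4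
    rw [h4, h1]
    simp
  simp only [eval_one, one_mul, wt_apply]
  rw [intervalIntegral.integral_ofReal, h2]
  have hpi : (Real.pi : ℂ) ≠ 0 := by exact_mod_cast Real.pi_ne_zero
  push_cast
  field_simp

/-- Coefficient bound for `1 / (a * h)`. -/
theorem recip_bound {a : ℕ → ℝ} (ha : Kaluza a) {h : ℂ → ℂ}
    (hd : DifferentiableOn ℂ h (Metric.ball 0 1)) (h0 : h 0 = 1)
    (hre : ∀ z ∈ Metric.ball (0 : ℂ) 1, 0 ≤ (h z).re)
    (B : ℕ → ℂ) (hB0 : B 0 = 1)
    (hB : ∀ n, n ≠ 0 → ∑ p ∈ antidiagonal n, ((a p.1 : ℂ) * tc h p.1) * B p.2 = 0) (N : ℕ)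
    (hN : N ≠ 0) : ‖B N‖ ≤ 2 * a N := by
  have key : ∀ r : ℝ, 0 < r → r < 1 → ‖B N‖ * r ^ N ≤ 2 * a N := by
    intro r hr0 hr1
    have := coeff_bound ha (Lw (wt h hd r hr0 hr1)) (fun q hq => Lw_pos _ (fun t => by
      rw [wt_apply]; apply hre; simpa [abs_of_pos hr0] using hr1) q hq)
      (Lw_one hd h0 hr0 hr1) (fun n => tc h n * (r : ℂ) ^ n) (by simp [tc, h0])
      (fun n hn => Lw_X hd hr0 hr1 n hn) (fun n => B n * (r : ℂ) ^ n) (by simp [hB0])
      (by
        intro n hn
        have e : ∑ p ∈ antidiagonal n, ((a p.1 : ℂ) * (tc h p.1 * (r : ℂ) ^ p.1)) *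
            (B p.2 * (r : ℂ) ^ p.2) =
            (r : ℂ) ^ n * ∑ p ∈ antidiagonal n, ((a p.1 : ℂ) * tc h p.1) * B p.2 := by
          rw [Finset.mul_sum]
          refine Finset.sum_congr rfl fun p hp => ?_
          have hp' : p.1 + p.2 = n := by simpa using hp
          rw [← hp', pow_add]
          ring
        rw [e, hB n hn, mul_zero]) N hN
    simpa [norm_mul, norm_pow, abs_of_pos hr0] using this
  by_contra hcon
  push Not at hcon
  have hBpos : 0 < ‖B N‖ := lt_trans (by have := ha.pos N; positivity) hcon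
  have hcont : Filter.Tendsto (fun r : ℝ => ‖B N‖ * r ^ N) (nhdsWithin 1 (Set.Iio 1))
      (nhds (‖B N‖ * 1 ^ N)) := by
    refine Filter.Tendsto.mono_left ?_ nhdsWithin_le_nhds
    exact ((continuous_const.mul (continuous_pow N)).tendsto 1)
  have hle : ‖B N‖ * 1 ^ N ≤ 2 * a N := by
    refine le_of_tendsto hcont ?_
    have h1 : ∀ᶠ r : ℝ in nhdsWithin 1 (Set.Iio 1), 0 < r :=
      (Filter.Eventually.filter_mono nhdsWithin_le_nhds (lt_mem_nhds one_pos))
    filter_upwards [h1, self_mem_nhdsWithin] with r hr0 hr1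
    exact key r hr0 hr1
  rw [one_pow, mul_one] at hle
  linarith

end Pool.Agent.Q87.BZ
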